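import Pool.Agent.Work.MP_f41de7_nt.Final

set_option autoImplicit false

namespace Pool.Agent.Results.MP_f41de7_nt.Supercongruence

/-- the generalised binomial coefficient `a (a - 1) ... (a - k + 1) / k!` -/
def binom (a : ℚ) (k : ℕ) : ℚ := (∏ i ∈ Finset.range k, (a - i)) / k.factorial

/-- the truncated series of the question -/
def S (p : ℕ) : ℚ := ∑ k ∈ Finset.range p, binom (-1/4) k * binom (-1/2) k / (-80) ^ k

/-- `q` is `p`-integral: `p` does not divide its (reduced) denominator -/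
def PIntegral (p : ℕ) (q : ℚ) : Prop := ¬ p ∣ q.den

/-- `u` is congruent to `v` modulo `p ^ m`, for `p`-integral rationals `u` and `v` -/
def Cong (p m : ℕ) (u v : ℚ) : Prop :=
  PIntegral p u ∧ PIntegral p v ∧ PIntegral p ((u - v) / p ^ m)

private theorem binom_zero (a : ℚ) : binom a 0 = 1 := by simp [binom]

private theorem binom_succ (a : ℚ) (k : ℕ) :
    ((k : ℚ) + 1) * binom a (k + 1) = (a - k) * binom a k := by
  have h1 : (k.factorial : ℚ) ≠ 0 := by exact_mod_cast k.factorial_ne_zero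
  have h2 : ((k : ℚ) + 1) ≠ 0 := by positivity
  rw [binom, binom, Finset.prod_range_succ, Nat.factorial_succ]
  push_cast
  field_simp

private theorem t_zero : binom (-1/4) 0 * binom (-1/2) 0 = 1 := by
  rw [binom_zero, binom_zero, one_mul]

private theorem t_rec (k : ℕ) : 8 * ((k : ℚ) + 1) ^ 2 * (binom (-1/4) (k + 1) * binom (-1/2) (k + 1)) =
    (4 * k + 1) * (2 * k + 1) * (binom (-1/4) k * binom (-1/2) k) := by
  have h1 := binom_succ (-1/4) k
  have h2 := binom_succ (-1/2) k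
  have e : 8 * ((k : ℚ) + 1) ^ 2 * (binom (-1/4) (k + 1) * binom (-1/2) (k + 1)) =
      8 * (((k : ℚ) + 1) * binom (-1/4) (k + 1)) * (((k : ℚ) + 1) * binom (-1/2) (k + 1)) := by
    ring
  rw [e, h1, h2]
  ring

/-- The question Q1, answered in the affirmative: for every prime `p` other than `2` and `5`,
the three congruences of the question hold. -/
theorem result (p : ℕ) (hp : p.Prime) (h2 : p ≠ 2) (h5 : p ≠ 5) :
    (∀ x y : ℤ, (p : ℤ) = x ^ 2 + y ^ 2 → Odd x → (p % 5 = 1 ∨ p % 5 = 4) →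
      Cong p 2 (S p) (2 * x - p / (2 * x)) ∨ Cong p 2 (S p) (2 * (-x) - p / (2 * (-x)))) ∧
    (∀ x y : ℤ, (p : ℤ) = x ^ 2 + y ^ 2 → Odd x → (p % 5 = 2 ∨ p % 5 = 3) →
      Cong p 2 (S p) (2 * y - p / (2 * y)) ∨ Cong p 2 (S p) (2 * (-y) - p / (2 * (-y)))) ∧
    (p % 4 = 3 → Cong p 1 (S p) 0) := by
  have : Fact p.Prime := ⟨hp⟩
  refine ⟨?_, ?_, ?_⟩
  · intro x y hxy hx h
    obtain ⟨n, hn, hn0⟩ := Sc80.mod_four p h2 x y hxy hx
    obtain ⟨hxp, hyp⟩ := Sc80.xy_ndvd p x y hxy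
    exact (Sc80.fin_one hn hn0 h5 (fun k => binom (-1/4) k * binom (-1/2) k) t_zero t_rec
      (Sc80.eightyone_pow p n hn) x y hxy hx hxp hyp).1 (Sc80.eighty_pow_one p n hn h)
  · intro x y hxy hx h
    obtain ⟨n, hn, hn0⟩ := Sc80.mod_four p h2 x y hxy hx
    obtain ⟨hxp, hyp⟩ := Sc80.xy_ndvd p x y hxy
    exact (Sc80.fin_one hn hn0 h5 (fun k => binom (-1/4) k * binom (-1/2) k) t_zero t_rec
      (Sc80.eightyone_pow p n hn) x y hxy hx hxp hyp).2 (Sc80.eighty_pow_neg p n hn h)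
  · intro h
    exact Sc80.fin_three (n := p / 4) (by omega) (fun k => binom (-1/4) k * binom (-1/2) k)
      t_zero t_rec

end Pool.Agent.Results.MP_f41de7_nt.Supercongruence
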